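import Pool.Agent.Helper49_Channels.Q1Left

/-!
# Full answer to Q1 of MP_a4cf75_mp

`1 = ‖T_Dep‖² ≤ N_{t,k}(d, e) ≤ ‖T_Haar‖²` for all `t` and all `k, d, e ≥ 1`.

Sketch of the proof of the right inequality.
1. `T_Haar T_cHaar = T_cHaar` and convexity of `‖·‖²` reduce it, by induction on `k`, to
   `‖T_Haar Φ^{⊗ t}‖² ≤ E |Tr u|^{2t}` for a single channel `Φ` with Kraus operators `K_m`
   (`T0_TC_pow_le`, `hsSq_T0_mul_le`).
2. The left side is `E (∑_{m,m'} |Tr (u K_m K_{m'}†)|²)^t`, with `∑ ‖K_m K_{m'}†‖² = d`; by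
   Jensen it suffices that `E |Tr (u A)|^{2t} ≤ E |Tr u|^{2t} (‖A‖² / d)^t` (`star_ineq`).
3. With `M = (d / ‖A‖²) A A†`, `E |Tr (u M^{1/2})|^{2t} = E [conj (Tr u)^t (Tr u M)^t]`
   (`exists_root`), and the last quantity increases along the segment from `M` to `1`
   (`path_ineq`), because `Re E [conj (Tr u)^{s+1} (Tr u M)^s Tr (u (1 - M))] ≥ 0` (`key_ineq`).
4. `key_ineq` rests on a Schwinger-Dyson recursion for the partial traces of
   `S_p = E [conj (Tr u)^p u^{⊗ (s+1)}]`, and on Chebyshev's inequality for highest weight vectors.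
-/

namespace Pool.Agent.Results.MP_a4cf75_mp.HaarUpperBound

open Pool.Agent.Helper49_Channels

/-- Q1 of MP_a4cf75_mp. -/
theorem result (t k d e : ℕ) (hk : 1 ≤ k) (hd : 1 ≤ d) (he : 1 ≤ e) :
    hsSq (momentDep t d) = 1 ∧ hsSq (momentDep t d) ≤ N t k d e ∧
      N t k d e ≤ hsSq (momentHaar t d) := by
  have h := hsSq_momentDep t d hd
  exact ⟨h, h ▸ one_le_N t k d e hd he, N_le_hsSq_momentHaar t k d e hk hd he⟩

end Pool.Agent.Results.MP_a4cf75_mp.HaarUpperBound
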