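import Pool.Agent.Helper49_Channels.MomentTwo

open MeasureTheory Matrix

namespace Pool.Agent.Results.MP_a4cf75_mp.NotMonotoneInK

open Pool.Agent.Helper49_Channels

theorem lam_pos {d e : ℕ} (hd : 2 ≤ d) (he : 2 ≤ e) : 0 < lam d e := by
  unfold lam
  have h1 : (2:ℝ) ≤ d := by exact_mod_cast hd
  have h2 : (2:ℝ) ≤ e := by exact_mod_cast he
  have hD := denom_pos hd (by omega : 0 < e)
  refine div_pos (mul_pos (by linarith) (by nlinarith)) hD

theorem lam_lt_one {d e : ℕ} (hd : 2 ≤ d) (he : 2 ≤ e) : lam d e < 1 := by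
  unfold lam
  have h1 : (2:ℝ) ≤ d := by exact_mod_cast hd
  have h2 : (2:ℝ) ≤ e := by exact_mod_cast he
  have hD := denom_pos hd (by omega : 0 < e)
  rw [div_lt_one hD, mul_pow]
  have h3 : (0:ℝ) ≤ (d:ℝ) ^ 2 - 4 := by nlinarith
  have h4 : (0:ℝ) ≤ (e:ℝ) * ((e:ℝ) - 1) := by nlinarith
  nlinarith [mul_nonneg h3 h4]

theorem kap_pos {d e : ℕ} (hd : 2 ≤ d) (he : 2 ≤ e) : 0 < kap d e := by
  unfold kap
  have h1 : (2:ℝ) ≤ d := by exact_mod_cast hd
  have h2 : (2:ℝ) ≤ e := by exact_mod_cast he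
  have hD := denom_pos hd (by omega : 0 < e)
  refine div_pos (by nlinarith) hD

/-- The second-moment squared norms are eventually strictly increasing in the number of
concatenations. -/
theorem eventually_increasing (d e : ℕ) (hd : 2 ≤ d) (he : 2 ≤ e) :
    ∃ K : ℕ, ∀ k : ℕ, K ≤ k → N 2 k d e < N 2 (k + 1) d e := by
  have hl0 := lam_pos hd he
  have hl1 := lam_lt_one hd he
  have hk := kap_pos hd he
  have h1 : (2:ℝ) ≤ d := by exact_mod_cast hd
  have hc : 0 < ((d:ℝ) ^ 2 - 1) / (d:ℝ) ^ 2 := div_pos (by nlinarith) (by positivity)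
  obtain ⟨n, hn⟩ := exists_pow_lt_of_lt_one
    (show 0 < 2 * (((d:ℝ) ^ 2 - 1) / (d:ℝ) ^ 2) * kap d e ^ 2 by positivity) hl1
  refine ⟨n + 1, fun k hk1 => ?_⟩
  obtain ⟨m, rfl⟩ : ∃ m, k = m + 1 := ⟨k - 1, by omega⟩
  rw [N_two hd (by omega), N_two hd (by omega), Finset.sum_range_succ _ (m + 1)]
  set c := ((d:ℝ) ^ 2 - 1) / (d:ℝ) ^ 2 with hcdef
  set κ := kap d e
  set l := lam d e
  set s := ∑ j ∈ Finset.range (m + 1), l ^ j with hs
  have hs1 : 1 ≤ s := by
    rw [hs, Finset.sum_range_succ']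
    have : 0 ≤ ∑ j ∈ Finset.range m, l ^ (j + 1) :=
      Finset.sum_nonneg fun j _ => by positivity
    simpa using this
  have hp : l ^ (m + 1) < 2 * c * κ ^ 2 :=
    lt_of_le_of_lt (pow_le_pow_of_le_one hl0.le hl1.le (by omega)) hn
  have hp0 : 0 < l ^ (m + 1) := pow_pos hl0 _
  have hq : l ^ (m + 1 + 1) = l * l ^ (m + 1) := by ring
  rw [hq]
  set p := l ^ (m + 1)
  have key : (κ * (s + p)) ^ 2 * c + (l * p) ^ 2 - ((κ * s) ^ 2 * c + p ^ 2) =
      p * (2 * c * κ ^ 2 * (s - 1) + c * κ ^ 2 * p + (2 * c * κ ^ 2 - p) + l ^ 2 * p) := by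
    ring
  have : 0 < (κ * (s + p)) ^ 2 * c + (l * p) ^ 2 - ((κ * s) ^ 2 * c + p ^ 2) := by
    rw [key]
    refine mul_pos hp0 ?_
    have a1 : 0 ≤ 2 * c * κ ^ 2 * (s - 1) := mul_nonneg (by positivity) (by linarith)
    have a2 : 0 ≤ c * κ ^ 2 * p := by positivity
    have a3 : 0 ≤ l ^ 2 * p := by positivity
    linarith
  linarith

theorem lam_two_two : lam 2 2 = 2 / 5 := by
  unfold lam; norm_num

theorem kap_two_two : kap 2 2 = 2 / 15 := by
  unfold kap; norm_num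

theorem N_four_lt_five : N 2 4 2 2 < N 2 5 2 2 := by
  rw [N_two (k := 3) le_rfl (by norm_num), N_two (k := 4) le_rfl (by norm_num), lam_two_two,
    kap_two_two]
  norm_num [Finset.sum_range_succ]

/-- The literal negation of the monotonicity-in-`k` half of Q2. -/
theorem not_monotone :
    ¬ ∀ t d e k k' : ℕ, 1 ≤ t → 1 ≤ d → 1 ≤ e → 1 ≤ k → k ≤ k' → N t k' d e ≤ N t k d e :=
  fun h => absurd
    (h 2 2 2 4 5 (by norm_num) (by norm_num) (by norm_num) (by norm_num) (by norm_num))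
    (not_le.mpr N_four_lt_five)

/-- Negative answer to Q2: for `t = 2` and all `d, e ≥ 2`, `k ↦ N_{2,k}(d, e)` is eventually
strictly increasing, so `N_{t,k}(d, e)` is not non-increasing in `k`. -/
theorem result (d e : ℕ) (hd : 2 ≤ d) (he : 2 ≤ e) :
    ∃ K : ℕ, ∀ k : ℕ, K ≤ k → N 2 k d e < N 2 (k + 1) d e :=
  eventually_increasing d e hd he

end Pool.Agent.Results.MP_a4cf75_mp.NotMonotoneInK
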